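import Pool.Agent.Helper75.KS.GoalsA

/-!
# Project KS: the packet LMO (second and third moment of a law with log-concave tails)
-/

namespace Pool.Agent.Helper76.KS

open MeasureTheory Filter Topology Set Finset
open Pool.Agent.Helper44.KS Pool.Agent.Helper75.KS

noncomputable section

/-- The layer cake bound. -/
theorem layer {ν : Measure ℝ} [IsProbabilityMeasure ν] {f : ℝ → ℝ} (hf0 : ∀ u, 0 ≤ f u)
    (hf : Measurable f) (ht : ∀ s : ℝ, 0 ≤ s → ν.real {u | s < f u} ≤ 2 * (2 : ℝ) ^ (-(s / 6)))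
    {p : ℝ} (hp : 0 < p) :
    ∫⁻ u, ENNReal.ofReal (f u ^ p) ∂ν ≤
      ENNReal.ofReal (2 * p * ((6 / Real.log 2) ^ p * Real.Gamma p)) := by
  rw [lintegral_rpow_eq_lintegral_meas_lt_mul ν (ae_of_all _ hf0) hf.aemeasurable hp]
  have hlog : 0 < Real.log 2 := Real.log_pos (by norm_num)
  have hr : 0 < Real.log 2 / 6 := by positivity
  have h1 : ∀ t ∈ Ioi (0 : ℝ), ν {a | t < f a} * ENNReal.ofReal (t ^ (p - 1)) ≤
      ENNReal.ofReal (2 * (t ^ (p - 1) * Real.exp (-(Real.log 2 / 6 * t)))) := by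
    intro t ht0
    have ht0 : 0 < t := ht0
    have h2 : ν {a | t < f a} = ENNReal.ofReal (ν.real {a | t < f a}) := by
      rw [Measure.real, ENNReal.ofReal_toReal (measure_ne_top _ _)]
    rw [h2, ← ENNReal.ofReal_mul measureReal_nonneg]
    apply ENNReal.ofReal_le_ofReal
    have h3 : (2 : ℝ) ^ (-(t / 6)) = Real.exp (-(Real.log 2 / 6 * t)) := by
      rw [Real.rpow_def_of_pos (by norm_num)]
      congr 1
      ring
    have h4 := ht t ht0.le
    rw [h3] at h4
    have h5 : 0 ≤ t ^ (p - 1) := Real.rpow_nonneg ht0.le _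
    nlinarith [mul_le_mul_of_nonneg_right h4 h5]
  have hint : IntegrableOn (fun t : ℝ => 2 * (t ^ (p - 1) * Real.exp (-(Real.log 2 / 6 * t))))
      (Ioi 0) := by
    have h6 := integrableOn_rpow_mul_exp_neg_mul_rpow (p := 1) (s := p - 1) (by linarith) one_pos hr
    simp only [Real.rpow_one, neg_mul] at h6
    exact h6.const_mul 2
  calc ENNReal.ofReal p * ∫⁻ t in Ioi 0, ν {a | t < f a} * ENNReal.ofReal (t ^ (p - 1))
      ≤ ENNReal.ofReal p * ∫⁻ t in Ioi (0 : ℝ),
          ENNReal.ofReal (2 * (t ^ (p - 1) * Real.exp (-(Real.log 2 / 6 * t)))) := by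
        exact mul_le_mul_right (setLIntegral_mono' measurableSet_Ioi h1) _
    _ = ENNReal.ofReal p * ENNReal.ofReal (∫ t in Ioi (0 : ℝ),
          2 * (t ^ (p - 1) * Real.exp (-(Real.log 2 / 6 * t)))) := by
        rw [ofReal_integral_eq_lintegral_ofReal hint]
        refine (ae_restrict_iff' measurableSet_Ioi).2 (ae_of_all _ fun t ht0 => ?_)
        have ht0 : 0 < t := ht0
        have h5 : 0 ≤ t ^ (p - 1) := Real.rpow_nonneg ht0.le _
        show 0 ≤ 2 * (t ^ (p - 1) * Real.exp (-(Real.log 2 / 6 * t)))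
        positivity
    _ = ENNReal.ofReal (2 * p * ((6 / Real.log 2) ^ p * Real.Gamma p)) := by
        rw [integral_const_mul, Real.integral_rpow_mul_exp_neg_mul_Ioi hp hr,
          ← ENNReal.ofReal_mul hp.le]
        congr 1
        have h7 : (1 / (Real.log 2 / 6)) = 6 / Real.log 2 := by field_simp
        rw [h7]
        ring

/-- The moment bound for natural exponents. -/
theorem moment {ν : Measure ℝ} [IsProbabilityMeasure ν] {f : ℝ → ℝ} (hf0 : ∀ u, 0 ≤ f u)
    (hf : Measurable f) (ht : ∀ s : ℝ, 0 ≤ s → ν.real {u | s < f u} ≤ 2 * (2 : ℝ) ^ (-(s / 6)))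
    {k : ℕ} (hk : 0 < k) :
    Integrable (fun u => f u ^ k) ν ∧
      ∫ u, f u ^ k ∂ν ≤ 2 * k * ((6 / Real.log 2) ^ k * Real.Gamma k) := by
  have hlog : 0 < Real.log 2 := Real.log_pos (by norm_num)
  have hk' : (0 : ℝ) < k := by exact_mod_cast hk
  have h1 := layer hf0 hf ht hk'
  simp only [Real.rpow_natCast] at h1
  have h0 : ∀ u, 0 ≤ f u ^ k := fun u => pow_nonneg (hf0 u) k
  have hm : Measurable fun u => f u ^ k := hf.pow_const k
  have hI : Integrable (fun u => f u ^ k) ν := by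
    refine ⟨hm.aestronglyMeasurable, ?_⟩
    rw [hasFiniteIntegral_iff_ofReal (ae_of_all _ h0)]
    exact lt_of_le_of_lt h1 ENNReal.ofReal_lt_top
  refine ⟨hI, ?_⟩
  have h2 : ENNReal.ofReal (∫ u, f u ^ k ∂ν) ≤
      ENNReal.ofReal (2 * k * ((6 / Real.log 2) ^ k * Real.Gamma k)) := by
    rw [ofReal_integral_eq_lintegral_ofReal hI (ae_of_all _ h0)]
    exact h1
  have h3 : 0 ≤ 2 * (k : ℝ) * ((6 / Real.log 2) ^ k * Real.Gamma k) := by
    have := (Real.Gamma_pos_of_pos hk').le
    positivity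
  exact (ENNReal.ofReal_le_ofReal_iff h3).1 h2

theorem lmo (h : LtaStmt) : LmoStmt := by
  intro ν hν hi
  haveI := hν.prob
  set m := mea ν with hm
  set M := mdv ν with hM
  have hid : Integrable (fun u : ℝ => |u - m|) ν := (hi.sub (integrable_const m)).abs
  have hM0 : 0 ≤ M := by
    rw [hM, mdv]
    exact integral_nonneg fun u => abs_nonneg _
  rcases hM0.eq_or_lt with h0 | h0
  · have hz : ∀ᵐ u ∂ν, |u - m| = 0 := by
      have h1 : ∫ u, |u - m| ∂ν = 0 := by
        have h2 : ∫ u, |u - m| ∂ν = M := by rw [hM, mdv]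
        rw [h2, ← h0]
      exact (integral_eq_zero_iff_of_nonneg (fun u => abs_nonneg _) hid).1 h1
    have e2 : (fun u : ℝ => (u - m) ^ 2) =ᵐ[ν] fun _ => 0 := by
      filter_upwards [hz] with u hu
      rw [abs_eq_zero.1 hu]
      norm_num
    have e3 : (fun u : ℝ => |u - m| ^ 3) =ᵐ[ν] fun _ => 0 := by
      filter_upwards [hz] with u hu
      rw [hu]
      norm_num
    refine ⟨(integrable_zero ℝ ℝ ν).congr e2.symm, ?_, (integrable_zero ℝ ℝ ν).congr e3.symm, ?_⟩
    · rw [integral_congr_ae e2]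
      simp only [integral_zero]
      positivity
    · rw [integral_congr_ae e3]
      simp only [integral_zero]
      positivity
  · set f : ℝ → ℝ := fun u => |u - m| / M with hf
    have hf0 : ∀ u, 0 ≤ f u := fun u => div_nonneg (abs_nonneg _) h0.le
    have hfm : Measurable f := by
      have : Continuous f := by
        rw [hf]
        fun_prop
      exact this.measurable
    have ht : ∀ s : ℝ, 0 ≤ s → ν.real {u | s < f u} ≤ 2 * (2 : ℝ) ^ (-(s / 6)) := by
      intro s hs
      have e : {u | s < f u} = {u | s * mdv ν < |u - mea ν|} := by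
        ext u
        simp only [mem_setOf_eq, hf]
        rw [lt_div_iff₀ h0]
      rw [e]
      exact h ν hν hi s hs
    have hlog : 0 < Real.log 2 := Real.log_pos (by norm_num)
    have hlb : 0.6931471803 < Real.log 2 := Real.log_two_gt_d9
    have hq : 6 / Real.log 2 ≤ 8.6562 := by
      rw [div_le_iff₀ hlog]
      nlinarith
    have hq0 : 0 ≤ 6 / Real.log 2 := by positivity
    obtain ⟨i2, b2⟩ := moment hf0 hfm ht (k := 2) (by norm_num)
    obtain ⟨i3, b3⟩ := moment hf0 hfm ht (k := 3) (by norm_num)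
    have g2 : Real.Gamma ((2 : ℕ) : ℝ) = 1 := by
      have := Real.Gamma_nat_eq_factorial 1
      norm_num at this
      norm_num
    have g3 : Real.Gamma ((3 : ℕ) : ℝ) = 2 := by
      have := Real.Gamma_nat_eq_factorial 2
      norm_num at this
      norm_num
    rw [g2] at b2
    rw [g3] at b3
    have c2 : ∫ u, f u ^ 2 ∂ν ≤ 300 := by
      refine b2.trans ?_
      have : (6 / Real.log 2) ^ 2 ≤ 8.6562 ^ 2 := pow_le_pow_left₀ hq0 hq 2
      push_cast
      nlinarith
    have c3 : ∫ u, f u ^ 3 ∂ν ≤ 8000 := by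
      refine b3.trans ?_
      have : (6 / Real.log 2) ^ 3 ≤ 8.6562 ^ 3 := pow_le_pow_left₀ hq0 hq 3
      push_cast
      nlinarith
    have e2 : (fun u : ℝ => (u - m) ^ 2) = fun u => M ^ 2 * f u ^ 2 := by
      funext u
      rw [hf]
      simp only [div_pow, sq_abs]
      field_simp
    have e3 : (fun u : ℝ => |u - m| ^ 3) = fun u => M ^ 3 * f u ^ 3 := by
      funext u
      rw [hf]
      simp only [div_pow]
      field_simp
    rw [e2, e3]
    refine ⟨i2.const_mul _, ?_, i3.const_mul _, ?_⟩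
    · rw [integral_const_mul]
      nlinarith [mul_le_mul_of_nonneg_left c2 (pow_nonneg h0.le 2)]
    · rw [integral_const_mul]
      nlinarith [mul_le_mul_of_nonneg_left c3 (pow_nonneg h0.le 3)]

end

end Pool.Agent.Helper76.KS
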